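import Mathlib

open Set Filter Topology

namespace Pool.Agent.H.MP_235f01_an

variable {X : Type*} [NormedAddCommGroup X] [NormedSpace ℝ X]

theorem main (e : ℕ → X)
    (he : ∀ x : X, ∃! a : ℕ → ℝ, Tendsto (fun n => ∑ i ∈ Finset.range n, a i • e i) atTop (𝓝 x))
    (hun : ∀ (a s : ℕ → ℝ) (n : ℕ), (∀ i, s i = 1 ∨ s i = -1) →
      ‖∑ i ∈ Finset.range n, (s i * a i) • e i‖ = ‖∑ i ∈ Finset.range n, a i • e i‖)
    (H : ∀ x : X, ‖x‖ = 1 → ∀ U : Set (WeakSpace ℝ X), IsOpen U →
      (∃ y : X, ‖y‖ ≤ 1 ∧ toWeakSpace ℝ X y ∈ U) → ∀ r < (2:ℝ),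
        ∃ y : X, ‖y‖ ≤ 1 ∧ toWeakSpace ℝ X y ∈ U ∧ r < max ‖x + y‖ ‖x - y‖) : False := by
  classical
  choose a ha hu using he
  beta_reduce at ha hu
  have hadd : ∀ x y, a (x + y) = a x + a y := fun x y => (hu _ _ (((ha x).add (ha y)).congr
    fun n => by simp [add_smul, Finset.sum_add_distrib])).symm
  have hsm : ∀ (c : ℝ) x, a (c • x) = c • a x := fun c x => (hu _ _ (((ha x).const_smul c).congr
    fun n => by simp [Finset.smul_sum, smul_smul])).symm
  have hsingle : ∀ i, a (e i) = Pi.single i 1 := fun i => (hu _ _ (tendsto_const_nhds.congr' (by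
    filter_upwards [eventually_gt_atTop i] with n hn
    rw [Finset.sum_eq_single i (fun j _ hj => by simp [hj]) (fun h => by simp [hn] at h)]
    simp))).symm
  have hne : ∀ i, e i ≠ 0 := by
    intro i hi
    have h1 := hu 0 0 (by simp)
    have h2 := hsingle i
    rw [hi, ← h1] at h2
    simpa using congrFun h2 i
  let π : Finset ℕ → X →ₗ[ℝ] X := fun A =>
    { toFun := fun x => ∑ i ∈ A, a x i • e i
      map_add' := fun x y => by simp [hadd, add_smul, Finset.sum_add_distrib]
      map_smul' := fun c x => by simp [hsm, Finset.smul_sum, smul_smul] }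
  have hπ : ∀ A x, π A x = ∑ i ∈ A, a x i • e i := fun _ _ => rfl
  have refl : ∀ A y, ‖y - (2:ℝ) • π A y‖ = ‖y‖ := by
    intro A y
    refine tendsto_nhds_unique ((ha y).sub_const ((2:ℝ) • π A y)).norm ((ha y).norm.congr' ?_)
    obtain ⟨N, hN⟩ := A.exists_nat_subset_range
    filter_upwards [eventually_ge_atTop N] with n hn
    rw [← hun (a y) (fun i => if i ∈ A then -1 else 1) n (fun i => by split_ifs <;> simp)]
    congr 1
    have hA : A ⊆ Finset.range n := hN.trans (Finset.range_subset_range.2 hn)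
    rw [hπ, ← Finset.sum_sdiff hA, ← Finset.sum_sdiff hA, Finset.smul_sum, add_sub_assoc,
      ← Finset.sum_sub_distrib]
    congr 1
    · exact Finset.sum_congr rfl fun i hi => by rw [if_neg (Finset.mem_sdiff.1 hi).2, one_mul]
    · exact Finset.sum_congr rfl fun i hi => by rw [if_pos hi]; module
  have sup1 : ∀ A y, ‖y - π A y‖ ≤ ‖y‖ := by
    intro A y
    have : (2:ℝ) • (y - π A y) = y + (y - (2:ℝ) • π A y) := by module
    have h1 := norm_add_le y (y - (2:ℝ) • π A y)
    rw [← this, norm_smul, refl, Real.norm_two] at h1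
    linarith
  have sup2 : ∀ A y, ‖π A y‖ ≤ ‖y‖ := by
    intro A y
    have : (2:ℝ) • (π A y) = y - (y - (2:ℝ) • π A y) := by module
    have h1 := norm_sub_le y (y - (2:ℝ) • π A y)
    rw [← this, norm_smul, refl, Real.norm_two] at h1
    linarith
  let c : ℕ → X →L[ℝ] ℝ := fun i => LinearMap.mkContinuous
    { toFun := fun x => a x i
      map_add' := fun x y => by simp [hadd]
      map_smul' := fun c x => by simp [hsm] } (1 / ‖e i‖) (fun x => by
      have := sup2 {i} x
      rw [hπ, Finset.sum_singleton, norm_smul] at this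
      rw [div_mul_eq_mul_div, le_div_iff₀ (norm_pos_iff.2 (hne i)), one_mul]
      exact this)
  have hopen : ∀ (C : Finset ℕ) (w : X) (ε : ℝ),
      IsOpen {y : WeakSpace ℝ X | ‖π C ((toWeakSpace ℝ X).symm y) - w‖ < ε} := by
    intro C w ε
    refine isOpen_lt (Continuous.norm (Continuous.sub ?_ continuous_const)) continuous_const
    simp only [hπ]
    refine continuous_finsetSum _ fun i _ => Continuous.smul ?_ continuous_const
    exact WeakBilin.eval_continuous (topDualPairing ℝ X).flip (c i)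
  have hcomp : ∀ A C y, A ⊆ C → π A (π C y) = π A y := by
    intro A C y h
    have : a (π C y) = fun i => if i ∈ C then a y i else 0 := by
      funext i
      have h1 : a (π C y) i = c i (∑ j ∈ C, a y j • e j) := rfl
      have h2 : ∀ j, c i (e j) = if i = j then 1 else 0 := fun j => by
        show a (e j) i = _
        rw [hsingle, Pi.single_apply]
      simp [h1, h2]
    rw [hπ, this, hπ]
    exact Finset.sum_congr rfl fun i hi => by simp [h hi]
  have key : ∀ x : X, ‖x‖ = 1 → 1 ≤ max ‖π {0} x‖ ‖x - π {0} x‖ := by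
    intro x hx
    refine le_of_forall_pos_lt_add fun ε hε => ?_
    obtain ⟨N, n1, n2⟩ := ((Metric.tendsto_nhds.1 (ha x) (ε / 3) (by positivity)).and
      (eventually_gt_atTop 0)).exists
    set C := Finset.range N
    have hC : {0} ⊆ C := by simp [C, n2]
    rw [← hπ, dist_comm, dist_eq_norm] at n1
    set w := (2:ℝ) • π {0} x - x with hw
    obtain ⟨y, y1, y2, y3⟩ := H x hx _ (hopen C (π C w) (ε / 3))
      ⟨w, by rw [hw, norm_sub_rev, refl, hx], by simp [hε]⟩ (2 - ε / 3) (by linarith)
    simp only [mem_ofPred_eq, LinearEquiv.symm_apply_apply, ← map_sub] at y2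
    have z1 : π {0} w = π {0} x := by
      rw [hw, map_sub, map_smul, hcomp _ _ _ subset_rfl]; module
    have z2 : π (C \ {0}) x = π C x - π {0} x := by
      simp only [hπ]; exact Finset.sum_sdiff_eq_sub hC
    have z3 : π (C \ {0}) (π {0} x) = 0 := by
      have : π (C \ {0}) (π {0} x) = π C (π {0} x) - π {0} (π {0} x) := by
        simp only [hπ _ (π {0} x)]; exact Finset.sum_sdiff_eq_sub hC
      rw [this, hcomp _ _ _ subset_rfl]
      have h3 : π C (π {0} x) = π {0} x := by
        rw [hπ {0}, Finset.sum_singleton, map_smul, hπ, hsingle,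
          Finset.sum_eq_single 0 (fun j _ hj => by simp [hj]) (fun h => by simp [C, n2] at h)]
        simp
      rw [h3, sub_self]
    have b1 : ‖π {0} (y - w)‖ < ε / 3 := by
      rw [← hcomp _ C _ hC]; exact (sup2 _ _).trans_lt y2
    have b2 : ‖π (C \ {0}) (y - w)‖ < ε / 3 := by
      rw [← hcomp _ C _ Finset.sdiff_subset]; exact (sup2 _ _).trans_lt y2
    rcases lt_max_iff.1 y3 with h | h
    · have e1 : x + y = π {0} x + (y - π (C \ {0}) y) + (x - π C x) + π (C \ {0}) (y - w) := by
        rw [map_sub, hw, map_sub, map_smul, z3, z2]; module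
      have := norm_add₄_le (a := π {0} x) (b := y - π (C \ {0}) y) (c := x - π C x)
        (d := π (C \ {0}) (y - w))
      rw [← e1] at this
      linarith [sup1 (C \ {0}) y, le_max_left ‖π {0} x‖ ‖x - π {0} x‖]
    · have e1 : x - y = (x - π {0} x) - (y - π {0} y) - π {0} (y - w) := by
        rw [map_sub, z1]; module
      have h1 := norm_sub_le ((x - π {0} x) - (y - π {0} y)) (π {0} (y - w))
      have h2 := norm_sub_le (x - π {0} x) (y - π {0} y)
      rw [← e1] at h1
      linarith [sup1 {0} y, le_max_right ‖π {0} x‖ ‖x - π {0} x‖]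
  have key' : ∀ v : X, ‖v‖ ≤ max ‖π {0} v‖ ‖v - π {0} v‖ := by
    intro v
    by_cases hv : v = 0
    · simp [hv]
    · have h0 := norm_pos_iff.2 hv
      have := key (‖v‖⁻¹ • v) (by rw [norm_smul, norm_inv, norm_norm, inv_mul_cancel₀ h0.ne'])
      rw [map_smul, ← smul_sub, norm_smul, norm_smul, norm_inv, norm_norm,
        ← mul_max_of_nonneg _ _ (inv_pos.2 h0).le, le_inv_mul_iff₀ h0, mul_one] at this
      exact this
  have h0 := norm_pos_iff.2 (hne 0)
  set x := ‖e 0‖⁻¹ • e 0 with hx
  have hx1 : ‖x‖ = 1 := by rw [hx, norm_smul, norm_inv, norm_norm, inv_mul_cancel₀ h0.ne']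
  have hx2 : π {0} x = x := by
    rw [hx, map_smul, hπ, hsingle]; simp
  obtain ⟨y, y1, y2, y3⟩ := H x hx1 _ (hopen {0} 0 (1 / 4)) ⟨0, by simp, by simp⟩ (3 / 2) (by norm_num)
  simp only [mem_ofPred_eq, LinearEquiv.symm_apply_apply, sub_zero] at y2
  have s1 := sup1 {0} y
  rcases lt_max_iff.1 y3 with h | h
  · have := key' (x + y)
    rw [map_add, hx2, add_sub_add_left_eq_sub] at this
    have h1 := norm_add_le x (π {0} y)
    rcases le_max_iff.1 this with k | k <;> linarith
  · have := key' (x - y)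
    rw [map_sub, hx2, sub_sub_sub_cancel_left, norm_sub_rev (π {0} y)] at this
    have h1 := norm_sub_le x (π {0} y)
    rcases le_max_iff.1 this with k | k <;> linarith

end Pool.Agent.H.MP_235f01_an
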